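import Mathlib

/-! # The group `ℤ² ⋊ D₄` of affine signed permutations of the plane -/

namespace H812R4

/-- The map `(x, y) ↦ (a x + u, b y + v)` (for `w = false`) or `(a y + u, b x + v)`
(for `w = true`), where `a, b = ± 1` and `u, v` are integers. -/
@[ext]
structure Gam where
  /-- first translation coordinate -/
  u : ℤ
  /-- second translation coordinate -/
  v : ℤ
  /-- first sign -/
  a : ℤˣ
  /-- second sign -/
  b : ℤˣ
  /-- whether the coordinates are swapped -/
  w : Bool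

namespace Gam

/-- The affine action on pairs. -/
def act {R : Type} [CommRing R] : Gam → R × R → R × R
  | ⟨u, v, a, b, false⟩, p => (((a : ℤ) : R) * p.1 + (u : R), ((b : ℤ) : R) * p.2 + (v : R))
  | ⟨u, v, a, b, true⟩, p => (((a : ℤ) : R) * p.2 + (u : R), ((b : ℤ) : R) * p.1 + (v : R))

/-- composition -/
def mul' : Gam → Gam → Gam
  | ⟨u, v, a, b, false⟩, ⟨u', v', a', b', w'⟩ =>
      ⟨(a : ℤ) * u' + u, (b : ℤ) * v' + v, a * a', b * b', w'⟩
  | ⟨u, v, a, b, true⟩, ⟨u', v', a', b', w'⟩ =>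
      ⟨(a : ℤ) * v' + u, (b : ℤ) * u' + v, a * b', b * a', !w'⟩

/-- inverse -/
def inv' : Gam → Gam
  | ⟨u, v, a, b, false⟩ => ⟨-((a : ℤ) * u), -((b : ℤ) * v), a, b, false⟩
  | ⟨u, v, a, b, true⟩ => ⟨-((b : ℤ) * v), -((a : ℤ) * u), b, a, true⟩

instance : Mul Gam := ⟨mul'⟩
instance : One Gam := ⟨⟨0, 0, 1, 1, false⟩⟩
instance : Inv Gam := ⟨inv'⟩

theorem one_def : (1 : Gam) = ⟨0, 0, 1, 1, false⟩ := rfl

theorem mul_false (u v : ℤ) (a b : ℤˣ) (u' v' : ℤ) (a' b' : ℤˣ) (w' : Bool) :
    (⟨u, v, a, b, false⟩ : Gam) * ⟨u', v', a', b', w'⟩ =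
      ⟨(a : ℤ) * u' + u, (b : ℤ) * v' + v, a * a', b * b', w'⟩ := rfl

theorem mul_true (u v : ℤ) (a b : ℤˣ) (u' v' : ℤ) (a' b' : ℤˣ) (w' : Bool) :
    (⟨u, v, a, b, true⟩ : Gam) * ⟨u', v', a', b', w'⟩ =
      ⟨(a : ℤ) * v' + u, (b : ℤ) * u' + v, a * b', b * a', !w'⟩ := rfl

theorem inv_false (u v : ℤ) (a b : ℤˣ) :
    (⟨u, v, a, b, false⟩ : Gam)⁻¹ = ⟨-((a : ℤ) * u), -((b : ℤ) * v), a, b, false⟩ := rfl

theorem inv_true (u v : ℤ) (a b : ℤˣ) :
    (⟨u, v, a, b, true⟩ : Gam)⁻¹ = ⟨-((b : ℤ) * v), -((a : ℤ) * u), b, a, true⟩ := rfl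

theorem units_sq (a : ℤˣ) : (a : ℤ) * (a : ℤ) = 1 := by
  rcases Int.units_eq_one_or a with h | h <;> subst h <;> simp

instance : Group Gam := Group.ofLeftAxioms
  (by
    rintro ⟨u, v, a, b, _ | _⟩ ⟨u', v', a', b', _ | _⟩ ⟨u'', v'', a'', b'', w''⟩ <;>
      simp only [mul_false, mul_true, Units.val_mul, Gam.mk.injEq, Bool.not_false, Bool.not_true,
        Bool.not_not, and_true] <;>
      refine ⟨by ring, by ring, by rw [mul_assoc], by rw [mul_assoc]⟩)
  (by
    rintro ⟨u, v, a, b, w⟩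
    rw [one_def, mul_false]
    simp)
  (by
    rintro ⟨u, v, a, b, _ | _⟩
    · rw [inv_false, mul_false, one_def]
      simp
    · rw [inv_true, mul_true, one_def]
      simp)

theorem act_one {R : Type} [CommRing R] (p : R × R) : act 1 p = p := by
  rw [one_def]
  simp [act]

theorem act_mul {R : Type} [CommRing R] (g h : Gam) (p : R × R) :
    act (g * h) p = act g (act h p) := by
  rcases g with ⟨u, v, a, b, _ | _⟩ <;> rcases h with ⟨u', v', a', b', _ | _⟩ <;>
    simp only [mul_false, mul_true, act, Units.val_mul, Int.cast_mul, Int.cast_add,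
      Bool.not_false, Bool.not_true, Prod.mk.injEq] <;>
    constructor <;> ring

/-- translation -/
def tr (P : ℤ × ℤ) : Gam := ⟨P.1, P.2, 1, 1, false⟩

/-- reflection in the first coordinate axis -/
def s2 : Gam := ⟨0, 0, 1, -1, false⟩

/-- reflection in the second coordinate axis -/
def s1 : Gam := ⟨0, 0, -1, 1, false⟩

/-- the swap -/
def sw : Gam := ⟨0, 0, 1, 1, true⟩

theorem tr_mul_tr (P Q : ℤ × ℤ) : tr P * tr Q = tr (P + Q) := by
  simp only [tr, mul_false]
  ext <;> simp <;> ring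

theorem tr_zero : tr 0 = 1 := rfl

/-- scaling of the translation part -/
def scl (n : ℤ) (g : Gam) : Gam := ⟨n * g.u, n * g.v, g.a, g.b, g.w⟩

theorem scl_mul (n : ℤ) (g h : Gam) : scl n (g * h) = scl n g * scl n h := by
  rcases g with ⟨u, v, a, b, _ | _⟩ <;> rcases h with ⟨u', v', a', b', w'⟩ <;>
    simp only [mul_false, mul_true, scl, Gam.mk.injEq, and_true] <;>
    constructor <;> ring

theorem scl_one (n : ℤ) : scl n 1 = 1 := by
  simp [scl, one_def]

/-- The self-similarity homomorphism of `Gam`: conjugation by `x ↦ P + n x`. -/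
def iota (P : ℤ × ℤ) (n : ℤ) (g : Gam) : Gam := tr P * scl n g * tr (-P)

theorem iota_mul (P : ℤ × ℤ) (n : ℤ) (g h : Gam) :
    iota P n (g * h) = iota P n g * iota P n h := by
  unfold iota
  rw [scl_mul]
  have : tr (-P) * tr P = 1 := by rw [tr_mul_tr, neg_add_cancel, tr_zero]
  calc tr P * (scl n g * scl n h) * tr (-P)
      = tr P * scl n g * 1 * (scl n h * tr (-P)) := by group
    _ = tr P * scl n g * (tr (-P) * tr P) * (scl n h * tr (-P)) := by rw [this]
    _ = _ := by group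

theorem iota_one (P : ℤ × ℤ) (n : ℤ) : iota P n 1 = 1 := by
  unfold iota
  rw [scl_one, mul_one, tr_mul_tr, add_neg_cancel, tr_zero]

theorem iota_inv (P : ℤ × ℤ) (n : ℤ) (g : Gam) : iota P n g⁻¹ = (iota P n g)⁻¹ := by
  apply eq_inv_of_mul_eq_one_left
  rw [← iota_mul, inv_mul_cancel, iota_one]

/-- The similarity `x ↦ P + n x`. -/
def sim {R : Type} [CommRing R] (P : ℤ × ℤ) (n : ℤ) (p : R × R) : R × R :=
  ((P.1 : R) + (n : R) * p.1, (P.2 : R) + (n : R) * p.2)

theorem iota_act {R : Type} [CommRing R] (P : ℤ × ℤ) (n : ℤ) (g : Gam) (p : R × R) :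
    act (iota P n g) (sim P n p) = sim P n (act g p) := by
  unfold iota
  rw [act_mul, act_mul]
  rcases g with ⟨u, v, a, b, _ | _⟩ <;>
    simp only [scl, act, sim, tr, Units.val_one, Int.cast_one, Int.cast_mul, Prod.fst_neg,
      Prod.snd_neg, Int.cast_neg, Prod.mk.injEq] <;>
    constructor <;> ring

theorem iota_iota (P Q : ℤ × ℤ) (n m : ℤ) (g : Gam) :
    iota P n (iota Q m g) = iota (P.1 + n * Q.1, P.2 + n * Q.2) (n * m) g := by
  rcases g with ⟨u, v, a, b, _ | _⟩ <;>
    simp only [iota, scl, tr, mul_false, mul_true, Gam.mk.injEq, and_true, Prod.fst_neg,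
      Prod.snd_neg, Units.val_one, one_mul, mul_one, Bool.not_false, Bool.not_true] <;>
    constructor <;> ring

theorem sim_sim {R : Type} [CommRing R] (P Q : ℤ × ℤ) (n m : ℤ) (p : R × R) :
    sim P n (sim Q m p) = sim (P.1 + n * Q.1, P.2 + n * Q.2) (n * m) p := by
  simp only [sim, Int.cast_add, Int.cast_mul, Prod.mk.injEq]
  constructor <;> ring

/-- the third reflection -/
def r3 (τ : ℤ) : Gam := ⟨-τ, 0, -1, 1, false⟩

/-- Generation by three reflections (as a monoid). -/
theorem generation (τ : ℤ) (T : Gam → Prop) (hmul : ∀ g h, T g → T h → T (g * h))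
    (h2 : T s2) (hs : T sw) (h3 : T (r3 τ)) : ∀ g, T (scl τ g) := by
  have h1 : T s1 := by
    have : s1 = sw * s2 * sw := by
      simp only [s1, sw, s2, mul_true, mul_false, Bool.not_false, Bool.not_true]; simp
    rw [this]
    exact hmul _ _ (hmul _ _ hs h2) hs
  have hone : T 1 := by
    have : (1 : Gam) = sw * sw := by
      simp only [sw, mul_true, one_def]; simp
    rw [this]
    exact hmul _ _ hs hs
  have tneg : T (tr (-τ, 0)) := by
    have : tr (-τ, 0) = r3 τ * s1 := by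
      simp only [tr, r3, s1, mul_false]; simp
    rw [this]
    exact hmul _ _ h3 h1
  have tpos : T (tr (τ, 0)) := by
    have : tr (τ, 0) = s1 * r3 τ := by
      simp only [tr, r3, s1, mul_false]; simp
    rw [this]
    exact hmul _ _ h1 h3
  have tx : ∀ m : ℤ, T (tr (τ * m, 0)) := by
    intro m
    induction m using Int.induction_on with
    | zero =>
      have : tr (τ * 0, 0) = 1 := by rw [mul_zero]; rfl
      rw [this]
      exact hone
    | succ i ih =>
      have : tr (τ * ((i : ℤ) + 1), 0) = tr (τ * (i : ℤ), 0) * tr (τ, 0) := by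
        rw [tr_mul_tr]
        congr 1
        ext <;> simp <;> ring
      rw [this]
      exact hmul _ _ ih tpos
    | pred i ih =>
      have : tr (τ * (-(i : ℤ) - 1), 0) = tr (τ * (-(i : ℤ)), 0) * tr (-τ, 0) := by
        rw [tr_mul_tr]
        congr 1
        ext <;> simp <;> ring
      rw [this]
      exact hmul _ _ ih tneg
  have ty : ∀ m : ℤ, T (tr (0, τ * m)) := by
    intro m
    have : tr (0, τ * m) = sw * tr (τ * m, 0) * sw := by
      simp only [tr, sw, mul_false, mul_true, Bool.not_false, Bool.not_true]; simp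
    rw [this]
    exact hmul _ _ (hmul _ _ hs (tx m)) hs
  have hab : ∀ a b : ℤˣ, T ⟨0, 0, a, b, false⟩ := by
    intro a b
    rcases Int.units_eq_one_or a with h | h <;> rcases Int.units_eq_one_or b with h' | h' <;>
      subst h <;> subst h'
    · exact hone
    · exact h2
    · exact h1
    · have : (⟨0, 0, -1, -1, false⟩ : Gam) = s1 * s2 := by
        simp only [s1, s2, mul_false]; simp
      rw [this]
      exact hmul _ _ h1 h2
  rintro ⟨u, v, a, b, w⟩
  have hab' : T ⟨0, 0, a, b, w⟩ := by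
    cases w
    · exact hab a b
    · have : (⟨0, 0, a, b, true⟩ : Gam) = ⟨0, 0, a, b, false⟩ * sw := by
        simp only [sw, mul_false]; simp
      rw [this]
      exact hmul _ _ (hab a b) hs
  have : scl τ ⟨u, v, a, b, w⟩ = tr (τ * u, 0) * tr (0, τ * v) * ⟨0, 0, a, b, w⟩ := by
    simp only [scl, tr, mul_false]; simp
  rw [this]
  exact hmul _ _ (hmul _ _ (tx u) (ty v)) hab'

end Gam

end H812R4
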