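import Mathlib

/-! # Etale groupoids, dynamic asymptotic dimension, finite dynamical complexity -/

namespace H812R4

/-- An etale groupoid, given by its space of arrows `G`, its source and range maps `s, r : G → G`
(with values in the units), a multiplication which is meaningful only on composable pairs
(`s g = r h`), and an inversion.  The space is locally compact Hausdorff, the operations are
continuous, and `s`, `r` are local homeomorphisms. -/
structure EtaleGroupoid where
  /-- the set of arrows -/
  carrier : Type
  /-- its topology -/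
  [top : TopologicalSpace carrier]
  /-- source -/
  s : carrier → carrier
  /-- range -/
  r : carrier → carrier
  /-- product (only meaningful for `s g = r h`) -/
  mul : carrier → carrier → carrier
  /-- inverse -/
  inv : carrier → carrier
  s_s : ∀ g, s (s g) = s g
  r_s : ∀ g, r (s g) = s g
  s_r : ∀ g, s (r g) = r g
  r_r : ∀ g, r (r g) = r g
  s_mul : ∀ g h, s g = r h → s (mul g h) = s h
  r_mul : ∀ g h, s g = r h → r (mul g h) = r g
  mul_assoc : ∀ g h k, s g = r h → s h = r k → mul (mul g h) k = mul g (mul h k)
  mul_s : ∀ g, mul g (s g) = g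
  r_mul_self : ∀ g, mul (r g) g = g
  s_inv : ∀ g, s (inv g) = r g
  r_inv : ∀ g, r (inv g) = s g
  inv_mul : ∀ g, mul (inv g) g = s g
  mul_inv : ∀ g, mul g (inv g) = r g
  t2 : T2Space carrier
  locallyCompact : LocallyCompactSpace carrier
  continuousOn_mul : ContinuousOn (fun p : carrier × carrier => mul p.1 p.2)
    {p | s p.1 = r p.2}
  continuous_inv : Continuous inv
  isLocalHomeomorph_s : IsLocalHomeomorph s
  isLocalHomeomorph_r : IsLocalHomeomorph r

attribute [instance] EtaleGroupoid.top

namespace EtaleGroupoid

variable (G : EtaleGroupoid)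

/-- The unit space `G⁽⁰⁾`. -/
def units : Set G.carrier := {g | G.s g = g}

/-- `H` is (the set of arrows of) a subgroupoid. -/
def IsSubgroupoid (H : Set G.carrier) : Prop :=
  (∀ g ∈ H, ∀ h ∈ H, G.s g = G.r h → G.mul g h ∈ H) ∧ ∀ g ∈ H, G.inv g ∈ H

/-- The subgroupoid generated by a set of arrows. -/
def gen (S : Set G.carrier) : Set G.carrier := ⋂₀ {H | G.IsSubgroupoid H ∧ S ⊆ H}

/-- Relatively compact: the closure is compact. -/
def RelCompact (K : Set G.carrier) : Prop := IsCompact (closure K)

/-- The elements of `K` with source and range in `U`. -/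
def restr (K U : Set G.carrier) : Set G.carrier := {g | g ∈ K ∧ G.s g ∈ U ∧ G.r g ∈ U}

/-- Dynamic asymptotic dimension at most `d`. -/
def DADLE (d : ℕ) : Prop :=
  ∀ K : Set G.carrier, IsOpen K → G.RelCompact K →
    ∃ U : Fin (d + 1) → Set G.carrier,
      (∀ i, IsOpen (U i) ∧ U i ⊆ G.units) ∧ (G.s '' K ∪ G.r '' K ⊆ ⋃ i, U i) ∧
        ∀ i, G.RelCompact (G.gen (G.restr K (U i)))

/-- Finite dynamic asymptotic dimension. -/
def FiniteDAD : Prop := ∃ d, G.DADLE d

/-- Open subgroupoids of `G`. -/
def OpenSubgroupoid (H : Set G.carrier) : Prop := IsOpen H ∧ G.IsSubgroupoid H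

/-- `H` is decomposable over the set `C` of open subgroupoids. -/
def Decomposable (H : Set G.carrier) (C : Set (Set G.carrier)) : Prop :=
  ∀ K : Set G.carrier, K ⊆ H → IsOpen K → G.RelCompact K →
    ∃ U : Fin 2 → Set G.carrier, (∀ i, IsOpen (U i)) ∧ (U 0 ∪ U 1 = H ∩ G.units) ∧
      ∀ i, ∃ L ∈ C, G.gen (G.restr K (U i)) ⊆ L

/-- A set of open subgroupoids containing the relatively compact ones, and all those which are
decomposable over it. -/
def Closed (D : Set (Set G.carrier)) : Prop :=
  (∀ H ∈ D, G.OpenSubgroupoid H) ∧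
  (∀ H, G.OpenSubgroupoid H → G.RelCompact H → H ∈ D) ∧
  (∀ H, G.OpenSubgroupoid H → G.Decomposable H D → H ∈ D)

/-- Finite dynamical complexity: `G` belongs to the smallest closed set of open subgroupoids. -/
def FDC : Prop := Set.univ ∈ ⋂₀ {D | G.Closed D}

/-- The variant of decomposability in which relative compactness of `K` is measured inside `H`
(the closure of `K` is a compact subset of `H`). -/
def DecomposableRel (H : Set G.carrier) (C : Set (Set G.carrier)) : Prop :=
  ∀ K : Set G.carrier, closure K ⊆ H → IsOpen K → G.RelCompact K →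
    ∃ U : Fin 2 → Set G.carrier, (∀ i, IsOpen (U i)) ∧ (U 0 ∪ U 1 = H ∩ G.units) ∧
      ∀ i, ∃ L ∈ C, G.gen (G.restr K (U i)) ⊆ L

/-- The corresponding closed sets of open subgroupoids. -/
def ClosedRel (D : Set (Set G.carrier)) : Prop :=
  (∀ H ∈ D, G.OpenSubgroupoid H) ∧
  (∀ H, G.OpenSubgroupoid H → G.RelCompact H → H ∈ D) ∧
  (∀ H, G.OpenSubgroupoid H → G.DecomposableRel H D → H ∈ D)

/-- Finite dynamical complexity, for the variant of decomposability. -/
def FDCRel : Prop := Set.univ ∈ ⋂₀ {D | G.ClosedRel D}

variable {G}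

theorem isSubgroupoid_gen (S : Set G.carrier) : G.IsSubgroupoid (G.gen S) := by
  constructor
  · intro g hg h hh e H hH
    exact hH.1.1 g (hg H hH) h (hh H hH) e
  · intro g hg H hH
    exact hH.1.2 g (hg H hH)

theorem subset_gen (S : Set G.carrier) : S ⊆ G.gen S := fun _ hg _ hH => hH.2 hg

theorem gen_subset {S H : Set G.carrier} (hH : G.IsSubgroupoid H) (h : S ⊆ H) :
    G.gen S ⊆ H := fun _ hg => hg H ⟨hH, h⟩

end EtaleGroupoid

/-! ### Transformation groupoids -/

section Trans

variable (Γ X : Type) [Group Γ] [TopologicalSpace X] [MulAction Γ X] [T2Space X]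
  [LocallyCompactSpace X] [ContinuousConstSMul Γ X] [TopologicalSpace Γ] [DiscreteTopology Γ]

theorem continuous_act : Continuous (fun p : X × Γ => p.2 • p.1) :=
  continuous_prod_of_discrete_right.mpr fun g => continuous_const_smul g

theorem isOpen_slice (g : Γ) : IsOpen {p : X × Γ | p.2 = g} :=
  (isOpen_discrete ({g} : Set Γ)).preimage continuous_snd

/-- local inverse data for the source map -/
def srcHomeo (a : X × Γ) : OpenPartialHomeomorph (X × Γ) (X × Γ) where
  toFun := fun p => (p.1, 1)
  invFun := fun p => (p.1, a.2)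
  source := {p | p.2 = a.2}
  target := {p | p.2 = 1}
  map_source' := fun _ _ => rfl
  map_target' := fun _ _ => rfl
  left_inv' := by
    rintro ⟨x, g⟩ hg
    have : g = a.2 := hg
    subst this
    rfl
  right_inv' := by
    rintro ⟨x, g⟩ hg
    have : g = 1 := hg
    subst this
    rfl
  open_source := isOpen_slice Γ X a.2
  open_target := isOpen_slice Γ X 1
  continuousOn_toFun := (continuous_fst.prodMk continuous_const).continuousOn
  continuousOn_invFun := (continuous_fst.prodMk continuous_const).continuousOn

/-- local inverse data for the range map -/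
def rngHomeo (a : X × Γ) : OpenPartialHomeomorph (X × Γ) (X × Γ) where
  toFun := fun p => (p.2 • p.1, 1)
  invFun := fun p => (a.2⁻¹ • p.1, a.2)
  source := {p | p.2 = a.2}
  target := {p | p.2 = 1}
  map_source' := fun _ _ => rfl
  map_target' := fun _ _ => rfl
  left_inv' := by
    rintro ⟨x, g⟩ hg
    have : g = a.2 := hg
    subst this
    simp
  right_inv' := by
    rintro ⟨x, g⟩ hg
    have : g = 1 := hg
    subst this
    simp
  open_source := isOpen_slice Γ X a.2
  open_target := isOpen_slice Γ X 1
  continuousOn_toFun := ((continuous_act Γ X).prodMk continuous_const).continuousOn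
  continuousOn_invFun := (((continuous_const_smul a.2⁻¹).comp continuous_fst).prodMk
        continuous_const).continuousOn

theorem isLocalHomeomorph_src : IsLocalHomeomorph (fun p : X × Γ => ((p.1, 1) : X × Γ)) :=
  IsLocalHomeomorph.mk (fun p : X × Γ => ((p.1, 1) : X × Γ))
    fun a => ⟨srcHomeo Γ X a, rfl, fun _ _ => rfl⟩

theorem isLocalHomeomorph_rng : IsLocalHomeomorph (fun p : X × Γ => ((p.2 • p.1, 1) : X × Γ)) :=
  IsLocalHomeomorph.mk (fun p : X × Γ => ((p.2 • p.1, 1) : X × Γ))
    fun a => ⟨rngHomeo Γ X a, rfl, fun _ _ => rfl⟩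

/-- The transformation groupoid of an action of a discrete group: the arrow `(x, g)` goes from
`x` to `g • x`. -/
def transG : EtaleGroupoid where
  carrier := X × Γ
  s := fun p => (p.1, 1)
  r := fun p => (p.2 • p.1, 1)
  mul := fun p q => (q.1, p.2 * q.2)
  inv := fun p => (p.2 • p.1, p.2⁻¹)
  s_s := fun _ => rfl
  r_s := fun p => by simp
  s_r := fun _ => rfl
  r_r := fun p => by simp
  s_mul := fun _ _ _ => rfl
  r_mul := fun g h e => by
    have e1 : g.1 = h.2 • h.1 := congrArg Prod.fst e
    simp only [Prod.mk.injEq, and_true]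
    rw [mul_smul, e1]
  mul_assoc := fun g h k _ _ => by simp [_root_.mul_assoc]
  mul_s := fun g => by simp
  r_mul_self := fun g => by simp
  s_inv := fun g => rfl
  r_inv := fun g => by simp
  inv_mul := fun g => by simp
  mul_inv := fun g => by simp
  t2 := inferInstance
  locallyCompact := inferInstance
  continuousOn_mul := by
    apply Continuous.continuousOn
    refine (continuous_fst.comp continuous_snd).prodMk ?_
    exact (continuous_of_discreteTopology (f := fun p : Γ × Γ => p.1 * p.2)).comp
      ((continuous_snd.comp continuous_fst).prodMk (continuous_snd.comp continuous_snd))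
  continuous_inv := by
    refine Continuous.prodMk ?_ ?_
    · exact continuous_prod_of_discrete_right.mpr fun g => continuous_const_smul g
    · exact (continuous_of_discreteTopology (f := fun g : Γ => g⁻¹)).comp continuous_snd
  isLocalHomeomorph_s := isLocalHomeomorph_src Γ X
  isLocalHomeomorph_r := isLocalHomeomorph_rng Γ X

end Trans

end H812R4
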