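import Mathlib

/-! # A game-of-Y lemma on the integer lattice -/

namespace H812R4

/-- The six neighbour directions of the triangular lattice, in square coordinates. -/
def Dir (u : ℤ × ℤ) : Prop :=
  u = (1, 0) ∨ u = (-1, 0) ∨ u = (0, 1) ∨ u = (0, -1) ∨ u = (1, 1) ∨ u = (-1, -1)

/-- One step between two adjacent cells of colour `j`. -/
def CStep (c : ℤ × ℤ → Bool) (j : Bool) (P Q : ℤ × ℤ) : Prop :=
  c P = j ∧ c Q = j ∧ Dir (Q - P)

/-- Connection by a chain of cells of colour `j`. -/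
def Conn (c : ℤ × ℤ → Bool) (j : Bool) : ℤ × ℤ → ℤ × ℤ → Prop :=
  Relation.ReflTransGen (CStep c j)

/-- Majority colour of the triangle `P, P + (1,0), P + (1,1)`. -/
def maj (c : ℤ × ℤ → Bool) (P : ℤ × ℤ) : Bool :=
  (c P && c (P + (1, 0))) || (c P && c (P + (1, 1))) || (c (P + (1, 0)) && c (P + (1, 1)))

theorem Dir.neg {u : ℤ × ℤ} (h : Dir u) : Dir (-u) := by
  rcases h with h | h | h | h | h | h <;> subst h <;> simp [Dir]

theorem CStep.symm {c : ℤ × ℤ → Bool} {j : Bool} {P Q : ℤ × ℤ} (h : CStep c j P Q) :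
    CStep c j Q P := by
  refine ⟨h.2.1, h.1, ?_⟩
  have := h.2.2.neg
  rwa [neg_sub] at this

theorem Conn.symm {c : ℤ × ℤ → Bool} {j : Bool} {P Q : ℤ × ℤ} (h : Conn c j P Q) :
    Conn c j Q P := by
  induction h with
  | refl => exact Relation.ReflTransGen.refl
  | tail _ hs ih => exact Relation.ReflTransGen.head hs.symm ih

theorem Conn.trans {c : ℤ × ℤ → Bool} {j : Bool} {P Q R : ℤ × ℤ} (h : Conn c j P Q)
    (h' : Conn c j Q R) : Conn c j P R := Relation.ReflTransGen.trans h h'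

theorem conn_of_dir {c : ℤ × ℤ → Bool} {j : Bool} {P Q : ℤ × ℤ} (hP : c P = j) (hQ : c Q = j)
    (h : Dir (Q - P)) : Conn c j P Q := Relation.ReflTransGen.single ⟨hP, hQ, h⟩

/-- The triangle of a cell of the reduced board. -/
def Tri (P X : ℤ × ℤ) : Prop := X = P ∨ X = P + (1, 0) ∨ X = P + (1, 1)

/-- two of the three cells have the majority colour -/
theorem maj_two {c : ℤ × ℤ → Bool} {j : Bool} {P : ℤ × ℤ} (h : maj c P = j) :
    (c P = j ∧ c (P + (1, 0)) = j) ∨ (c P = j ∧ c (P + (1, 1)) = j) ∨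
      (c (P + (1, 0)) = j ∧ c (P + (1, 1)) = j) := by
  subst h
  unfold maj
  cases c P <;> cases c (P + (1, 0)) <;> cases c (P + (1, 1)) <;> simp

theorem tri_conn {c : ℤ × ℤ → Bool} {j : Bool} {P X Y : ℤ × ℤ} (hX : Tri P X) (hY : Tri P Y)
    (cX : c X = j) (cY : c Y = j) : Conn c j X Y := by
  rcases hX with hX | hX | hX <;> rcases hY with hY | hY | hY <;> subst hX <;> subst hY <;>
    first
      | exact Relation.ReflTransGen.refl
      | (refine conn_of_dir cX cY ?_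
         simp [Dir])

theorem tri_step {c : ℤ × ℤ → Bool} {j : Bool} {P Q : ℤ × ℤ} (hP : maj c P = j)
    (hQ : maj c Q = j) (hd : Q - P = (1, 0) ∨ Q - P = (0, 1) ∨ Q - P = (1, 1)) :
    ∃ X Y, Tri P X ∧ Tri Q Y ∧ c X = j ∧ c Y = j ∧ Conn c j X Y := by
  have h1 := maj_two hP
  have h2 := maj_two hQ
  rcases hd with hd | hd | hd
  · -- Q = P + (1,0)
    have hQP : Q = P + (1, 0) := by rw [← hd]; abel
    subst hQP
    by_cases hs : c (P + (1, 0)) = j
    · exact ⟨P + (1, 0), P + (1, 0), Or.inr (Or.inl rfl), Or.inl rfl, hs, hs,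
        Relation.ReflTransGen.refl⟩
    · have a1 : c (P + (1, 1)) = j := by
        rcases h1 with h1 | h1 | h1
        · exact absurd h1.2 hs
        · exact h1.2
        · exact absurd h1.1 hs
      have a2 : c (P + (1, 0) + (1, 1)) = j := by
        rcases h2 with h2 | h2 | h2
        · exact absurd h2.1 hs
        · exact h2.2
        · exact h2.2
      refine ⟨P + (1, 1), P + (1, 0) + (1, 1), Or.inr (Or.inr rfl), Or.inr (Or.inr rfl), a1, a2,
        conn_of_dir a1 a2 ?_⟩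
      left
      ext <;> simp <;> ring
  · have hQP : Q = P + (0, 1) := by rw [← hd]; abel
    subst hQP
    have e1 : P + (0, 1) + (1, 0) = P + (1, 1) := by
      ext <;> simp <;> ring
    by_cases hs : c (P + (1, 1)) = j
    · refine ⟨P + (1, 1), P + (1, 1), Or.inr (Or.inr rfl), Or.inr (Or.inl e1.symm), hs, hs,
        Relation.ReflTransGen.refl⟩
    · have a1 : c P = j := by
        rcases h1 with h1 | h1 | h1
        · exact h1.1
        · exact h1.1
        · exact absurd h1.2 hs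
      have a2 : c (P + (0, 1)) = j := by
        rcases h2 with h2 | h2 | h2
        · exact h2.1
        · exact h2.1
        · rw [e1] at h2
          exact absurd h2.1 hs
      refine ⟨P, P + (0, 1), Or.inl rfl, Or.inl rfl, a1, a2, conn_of_dir a1 a2 ?_⟩
      right; right; left
      ext <;> simp
  · have hQP : Q = P + (1, 1) := by rw [← hd]; abel
    subst hQP
    by_cases hs : c (P + (1, 1)) = j
    · exact ⟨P + (1, 1), P + (1, 1), Or.inr (Or.inr rfl), Or.inl rfl, hs, hs,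
        Relation.ReflTransGen.refl⟩
    · have a1 : c (P + (1, 0)) = j := by
        rcases h1 with h1 | h1 | h1
        · exact h1.2
        · exact absurd h1.2 hs
        · exact h1.1
      have a2 : c (P + (1, 1) + (1, 0)) = j := by
        rcases h2 with h2 | h2 | h2
        · exact h2.2
        · exact absurd h2.1 hs
        · exact h2.1
      refine ⟨P + (1, 0), P + (1, 1) + (1, 0), Or.inr (Or.inl rfl), Or.inr (Or.inl rfl), a1, a2,
        conn_of_dir a1 a2 ?_⟩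
      right; right; right; right; left
      ext <;> simp <;> ring

theorem tri_adj {c : ℤ × ℤ → Bool} {j : Bool} {P Q : ℤ × ℤ} (h : CStep (maj c) j P Q)
    {X Y : ℤ × ℤ} (hX : Tri P X) (hY : Tri Q Y) (cX : c X = j) (cY : c Y = j) :
    Conn c j X Y := by
  obtain ⟨hP, hQ, hd⟩ := h
  have key : ∃ X' Y', Tri P X' ∧ Tri Q Y' ∧ c X' = j ∧ c Y' = j ∧ Conn c j X' Y' := by
    rcases hd with hd | hd | hd | hd | hd | hd
    · exact tri_step hP hQ (Or.inl hd)
    · have hd' : P - Q = (1, 0) := by rw [← neg_sub, hd]; simp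
      obtain ⟨X', Y', a, b, d, e, f⟩ := tri_step hQ hP (Or.inl hd')
      exact ⟨Y', X', b, a, e, d, f.symm⟩
    · exact tri_step hP hQ (Or.inr (Or.inl hd))
    · have hd' : P - Q = (0, 1) := by rw [← neg_sub, hd]; simp
      obtain ⟨X', Y', a, b, d, e, f⟩ := tri_step hQ hP (Or.inr (Or.inl hd'))
      exact ⟨Y', X', b, a, e, d, f.symm⟩
    · exact tri_step hP hQ (Or.inr (Or.inr hd))
    · have hd' : P - Q = (1, 1) := by rw [← neg_sub, hd]; simp
      obtain ⟨X', Y', a, b, d, e, f⟩ := tri_step hQ hP (Or.inr (Or.inr hd'))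
      exact ⟨Y', X', b, a, e, d, f.symm⟩
  obtain ⟨X', Y', a, b, d, e, f⟩ := key
  exact ((tri_conn hX a cX d).trans f).trans (tri_conn b hY e cY)

theorem tri_lift {c : ℤ × ℤ → Bool} {j : Bool} {P Q : ℤ × ℤ} (hP : maj c P = j)
    (h : Conn (maj c) j P Q) :
    ∀ {X Y : ℤ × ℤ}, Tri P X → Tri Q Y → c X = j → c Y = j → Conn c j X Y := by
  induction h with
  | refl =>
    intro X Y hX hY cX cY
    exact tri_conn hX hY cX cY
  | @tail Q R hPQ hs ih =>
    intro X Y hX hY cX cY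
    -- choose a cell of colour j in the triangle of Q
    have hQ : maj c Q = j := hs.1
    obtain ⟨Z, hZ, cZ⟩ : ∃ Z, Tri Q Z ∧ c Z = j := by
      rcases maj_two hQ with h | h | h
      · exact ⟨Q, Or.inl rfl, h.1⟩
      · exact ⟨Q, Or.inl rfl, h.1⟩
      · exact ⟨Q + (1, 0), Or.inr (Or.inl rfl), h.1⟩
    exact (ih hX hZ cX cZ).trans (tri_adj hs hZ hY cZ cY)

theorem conn_color {c : ℤ × ℤ → Bool} {j : Bool} {P Q : ℤ × ℤ} (hP : c P = j)
    (h : Conn c j P Q) : c Q = j := by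
  induction h with
  | refl => exact hP
  | tail _ hs _ => exact hs.2.1

/-- The game of Y lemma. -/
theorem yLemma (M : ℕ) : ∀ c : ℤ × ℤ → Bool, ∃ (j : Bool) (P P1 P2 P3 : ℤ × ℤ),
    c P = j ∧ Conn c j P P1 ∧ Conn c j P P2 ∧ Conn c j P P3 ∧
      P1.2 = 0 ∧ P2.1 = P2.2 ∧ P3.1 = (M : ℤ) := by
  induction M with
  | zero =>
    intro c
    exact ⟨c (0, 0), (0, 0), (0, 0), (0, 0), (0, 0), rfl, Relation.ReflTransGen.refl,
      Relation.ReflTransGen.refl, Relation.ReflTransGen.refl, rfl, rfl, rfl⟩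
  | succ M ih =>
    intro c
    obtain ⟨j, P, P1, P2, P3, hP, h1, h2, h3, s1, s2, s3⟩ := ih (maj c)
    have c1 := conn_color hP h1
    have c2 := conn_color hP h2
    have c3 := conn_color hP h3
    -- base cell
    obtain ⟨Z, hZ, cZ⟩ : ∃ Z, Tri P Z ∧ c Z = j := by
      rcases maj_two hP with h | h | h
      · exact ⟨P, Or.inl rfl, h.1⟩
      · exact ⟨P, Or.inl rfl, h.1⟩
      · exact ⟨P + (1, 0), Or.inr (Or.inl rfl), h.1⟩
    obtain ⟨Z1, hZ1, cZ1, t1⟩ : ∃ Z, Tri P1 Z ∧ c Z = j ∧ Z.2 = 0 := by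
      rcases maj_two c1 with h | h | h
      · exact ⟨P1, Or.inl rfl, h.1, s1⟩
      · exact ⟨P1, Or.inl rfl, h.1, s1⟩
      · exact ⟨P1 + (1, 0), Or.inr (Or.inl rfl), h.1, by simp [s1]⟩
    obtain ⟨Z2, hZ2, cZ2, t2⟩ : ∃ Z, Tri P2 Z ∧ c Z = j ∧ Z.1 = Z.2 := by
      rcases maj_two c2 with h | h | h
      · exact ⟨P2, Or.inl rfl, h.1, s2⟩
      · exact ⟨P2, Or.inl rfl, h.1, s2⟩
      · exact ⟨P2 + (1, 1), Or.inr (Or.inr rfl), h.2, by simp [s2]⟩
    obtain ⟨Z3, hZ3, cZ3, t3⟩ : ∃ Z, Tri P3 Z ∧ c Z = j ∧ Z.1 = ((M + 1 : ℕ) : ℤ) := by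
      rcases maj_two c3 with h | h | h
      · exact ⟨P3 + (1, 0), Or.inr (Or.inl rfl), h.2, by simp [s3]⟩
      · exact ⟨P3 + (1, 1), Or.inr (Or.inr rfl), h.2, by simp [s3]⟩
      · exact ⟨P3 + (1, 1), Or.inr (Or.inr rfl), h.2, by simp [s3]⟩
    exact ⟨j, Z, Z1, Z2, Z3, cZ, tri_lift hP h1 hZ hZ1 cZ cZ1, tri_lift hP h2 hZ hZ2 cZ cZ2,
      tri_lift hP h3 hZ hZ3 cZ cZ3, t1, t2, t3⟩

end H812R4
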