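import Mathlib
import Pool.Agent.H812R4.Groupoid
import Pool.Agent.H812R4.Gam
import Pool.Agent.H812R4.YGame

/-! # The action of `Gam` on the square of the 2-adic integers -/

namespace H812R4

open Gam Metric

noncomputable section

/-- The square of the 2-adic integers. -/
abbrev X2 : Type := ℤ_[2] × ℤ_[2]

instance : TopologicalSpace Gam := ⊥
instance : DiscreteTopology Gam := ⟨rfl⟩

instance : MulAction Gam X2 where
  smul := Gam.act
  one_smul := Gam.act_one
  mul_smul := Gam.act_mul

theorem smul_def (g : Gam) (x : X2) : g • x = Gam.act g x := rfl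

instance : ContinuousConstSMul Gam X2 where
  continuous_const_smul := by
    rintro ⟨u, v, a, b, _ | _⟩
    · refine Continuous.prodMk ?_ ?_
      · exact (continuous_const.mul continuous_fst).add continuous_const
      · exact (continuous_const.mul continuous_snd).add continuous_const
    · refine Continuous.prodMk ?_ ?_
      · exact (continuous_const.mul continuous_snd).add continuous_const
      · exact (continuous_const.mul continuous_fst).add continuous_const

/-- The transformation groupoid `ℤ₂² ⋊ (ℤ² ⋊ D₄)`. -/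
def GG : EtaleGroupoid := transG Gam X2

theorem sub_mul {W : Set (X2 × Gam)} (hW : GG.IsSubgroupoid W) {x : X2} {g h : Gam}
    (h1 : (x, g) ∈ W) (h2 : (g • x, h) ∈ W) : (x, h * g) ∈ W :=
  hW.1 (g • x, h) h2 (x, g) h1 rfl

theorem norm_two_pow_mul (k : ℕ) (w : ℤ_[2]) : ‖((2 : ℤ_[2]) ^ k) * w‖ ≤ (1 / 2 : ℝ) ^ k := by
  rw [norm_mul, norm_pow]
  have h2 : ‖(2 : ℤ_[2])‖ = 1 / 2 := by
    have := PadicInt.norm_p (p := 2)
    simpa using this
  rw [h2]
  exact mul_le_of_le_one_right (by positivity) (PadicInt.norm_le_one w)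

theorem range_affine (a : ℤ_[2]) (k : ℕ) :
    Set.range (fun x : ℤ_[2] => a + (2 : ℤ_[2]) ^ k * x) = closedBall a ((1 / 2 : ℝ) ^ k) := by
  ext y
  constructor
  · rintro ⟨x, rfl⟩
    rw [mem_closedBall, dist_eq_norm]
    simpa using norm_two_pow_mul k x
  · intro hy
    rw [mem_closedBall, dist_eq_norm] at hy
    have h3 := (PadicInt.norm_le_pow_iff_mem_span_pow (y - a) k).mp (by
      refine hy.trans (le_of_eq ?_)
      rw [zpow_neg, zpow_natCast, one_div, inv_pow]
      norm_num)
    rw [Ideal.mem_span_singleton] at h3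
    obtain ⟨c, hc⟩ := h3
    refine ⟨c, ?_⟩
    have : y = a + (y - a) := by ring
    rw [this, hc]
    norm_num

theorem isOpen_range_affine (a : ℤ_[2]) (k : ℕ) :
    IsOpen (Set.range (fun x : ℤ_[2] => a + (2 : ℤ_[2]) ^ k * x)) := by
  rw [range_affine]
  exact IsUltrametricDist.isOpen_closedBall _ (by positivity)

theorem continuous_sim (P : ℤ × ℤ) (n : ℤ) : Continuous (sim P n : X2 → X2) := by
  unfold sim
  refine Continuous.prodMk ?_ ?_
  · exact continuous_const.add (continuous_const.mul continuous_fst)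
  · exact continuous_const.add (continuous_const.mul continuous_snd)

theorem range_sim (P : ℤ × ℤ) (k : ℕ) :
    Set.range (sim P (2 ^ k) : X2 → X2) =
      Set.range (fun x : ℤ_[2] => (P.1 : ℤ_[2]) + (2 : ℤ_[2]) ^ k * x) ×ˢ
        Set.range (fun x : ℤ_[2] => (P.2 : ℤ_[2]) + (2 : ℤ_[2]) ^ k * x) := by
  ext ⟨y1, y2⟩
  constructor
  · rintro ⟨⟨x1, x2⟩, hx⟩
    simp only [sim, Int.cast_pow, Int.cast_ofNat, Prod.mk.injEq] at hx
    exact ⟨⟨x1, hx.1⟩, ⟨x2, hx.2⟩⟩
  · rintro ⟨⟨x1, h1⟩, ⟨x2, h2⟩⟩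
    refine ⟨(x1, x2), ?_⟩
    simp only at h1 h2
    simp [sim, h1, h2]

theorem isOpen_range_sim (P : ℤ × ℤ) (k : ℕ) : IsOpen (Set.range (sim P (2 ^ k) : X2 → X2)) := by
  rw [range_sim]
  exact (isOpen_range_affine _ k).prod (isOpen_range_affine _ k)

/-- The finite set of group elements used at each scale. -/
def FF : Set Gam := {g | g = 1 ∨ g = s1 ∨ g = s2 ∨ g = sw ∨ ∃ u, Dir u ∧ g = tr u}

theorem FF_finite : FF.Finite := by
  have hd : {u : ℤ × ℤ | Dir u}.Finite := by
    have : {u : ℤ × ℤ | Dir u} = {(1, 0), (-1, 0), (0, 1), (0, -1), (1, 1), (-1, -1)} := by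
      ext u
      simp [Dir]
    rw [this]
    exact Set.toFinite _
  have h2 : (tr '' {u : ℤ × ℤ | Dir u}).Finite := hd.image _
  have h3 : ({1, s1, s2, sw} : Set Gam).Finite := Set.toFinite _
  refine (h3.union h2).subset ?_
  rintro g (h | h | h | h | ⟨u, hu, h⟩)
  · left; simp [h]
  · left; simp [h]
  · left; simp [h]
  · left; simp [h]
  · right; exact ⟨u, hu, h.symm⟩

theorem tr_smul_sim (u P : ℤ × ℤ) (n : ℤ) (w : X2) : tr u • (sim P n w : X2) = sim (P + u) n w := by
  rw [smul_def]
  simp only [tr, act, sim, Units.val_one, Int.cast_one, one_mul, Prod.fst_add, Prod.snd_add,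
    Int.cast_add, Prod.mk.injEq]
  constructor <;> ring

/-- The key lemma: no colouring of the unit space destroys all self-similar pieces. -/
theorem keyLemma (U : Bool → Set X2) (hU : ∀ j, IsOpen (U j))
    (hcov : ∀ x, ∃ j, x ∈ U j) (W : Bool → Set (X2 × Gam)) (hW : ∀ j, GG.IsSubgroupoid (W j))
    (hF : ∀ j x g, g ∈ FF → x ∈ U j → g • x ∈ U j → (x, g) ∈ W j) :
    ∃ (j : Bool) (P : ℤ × ℤ) (k : ℕ), ∀ (x : X2) (g : Gam),
      (sim P (2 ^ k) x, iota P (2 ^ k) g) ∈ W j := by
  classical
  obtain ⟨δ, hδ, hleb⟩ := lebesgue_number_lemma_of_metric (s := (Set.univ : Set X2))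
    isCompact_univ hU (fun x _ => Set.mem_iUnion.mpr (hcov x))
  obtain ⟨k, hk⟩ := exists_pow_lt_of_lt_one hδ (show (1 / 2 : ℝ) < 1 by norm_num)
  -- the balls
  have hball : ∀ (P : ℤ × ℤ), ∃ j, ∀ w : X2, sim P (2 ^ k) w ∈ U j := by
    intro P
    obtain ⟨j, hj⟩ := hleb (sim P (2 ^ k) 0) (Set.mem_univ _)
    refine ⟨j, fun w => hj ?_⟩
    rw [mem_ball, dist_eq_norm]
    have e : (sim P (2 ^ k) w : X2) - sim P (2 ^ k) 0 =
        ((2 : ℤ_[2]) ^ k * w.1, (2 : ℤ_[2]) ^ k * w.2) := by
      simp [sim]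
    rw [e]
    refine lt_of_le_of_lt ?_ hk
    rw [Prod.norm_mk]
    exact max_le (norm_two_pow_mul k w.1) (norm_two_pow_mul k w.2)
  choose c hc using hball
  have hc' : ∀ P j, c P = j → ∀ w : X2, sim P (2 ^ (k + 1)) w ∈ U j := by
    intro P j hj w
    have h1 := hc P (2 * w.1, 2 * w.2)
    have e : (sim P (2 ^ k) (2 * w.1, 2 * w.2) : X2) = sim P (2 ^ (k + 1)) w := by
      simp only [sim, Prod.mk.injEq]
      constructor <;> push_cast <;> ring
    rw [e, hj] at h1
    exact h1
  obtain ⟨j, P, P1, P2, P3, hP, h1, h2, h3, t1, t2, t3⟩ := yLemma (2 ^ k) c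
  set n : ℤ := 2 ^ (k + 1) with hn
  refine ⟨j, P, k + 1, ?_⟩
  -- moving along a path
  have path : ∀ A B, c A = j → Conn c j A B → ∀ w : X2, (sim A n w, tr (B - A)) ∈ W j := by
    intro A B hA hAB
    induction hAB with
    | refl =>
      intro w
      rw [sub_self, tr_zero]
      refine hF j _ _ (Or.inl rfl) (hc' A j hA w) ?_
      rw [one_smul]
      exact hc' A j hA w
    | @tail B C hAB hs ih =>
      intro w
      have e : tr (C - A) = tr (C - B) * tr (B - A) := by
        rw [tr_mul_tr]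
        congr 1
        abel
      rw [e]
      refine sub_mul (hW j) (ih w) ?_
      have e2 : A + (B - A) = B := by abel
      have e3 : B + (C - B) = C := by abel
      rw [tr_smul_sim, e2]
      refine hF j _ _ ?_ (hc' B j hs.1 w) ?_
      · right; right; right; right
        exact ⟨C - B, hs.2.2, rfl⟩
      · rw [tr_smul_sim, e3]
        exact hc' C j hs.2.1 w
  -- loops through a wall
  have loop : ∀ (e : Gam) (Q : ℤ × ℤ), e ∈ FF → Conn c j P Q →
      (∀ w : X2, ∃ w' : X2, e • (sim Q n w : X2) = sim Q n w') →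
      ∀ w : X2, (sim P n w, tr (P - Q) * e * tr (Q - P)) ∈ W j ∧
        ∃ w' : X2, (tr (P - Q) * e * tr (Q - P)) • (sim P n w : X2) = sim P n w' := by
    intro e Q he hPQ hmap w
    obtain ⟨w', hw'⟩ := hmap w
    have hcQ : c Q = j := conn_color hP hPQ
    have e2 : P + (Q - P) = Q := by abel
    have e3 : Q + (P - Q) = P := by abel
    constructor
    · have a1 := path P Q hP hPQ w
      have a2 : (tr (Q - P) • (sim P n w : X2), e) ∈ W j := by
        rw [tr_smul_sim, e2]
        refine hF j _ _ he (hc' Q j hcQ w) ?_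
        rw [hw']
        exact hc' Q j hcQ w'
      have a3 := sub_mul (hW j) a1 a2
      have a4 : ((e * tr (Q - P)) • (sim P n w : X2), tr (P - Q)) ∈ W j := by
        rw [mul_smul, tr_smul_sim, e2, hw']
        exact path Q P hcQ hPQ.symm w'
      have a5 := sub_mul (hW j) a3 a4
      rwa [← mul_assoc] at a5
    · refine ⟨w', ?_⟩
      rw [mul_smul, mul_smul, tr_smul_sim, e2, hw', tr_smul_sim, e3]
  -- the monoid of good elements
  let T : Gam → Prop := fun g => ∀ w : X2, (sim P n w, tr P * g * tr (-P)) ∈ W j ∧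
    ∃ w' : X2, (tr P * g * tr (-P)) • (sim P n w : X2) = sim P n w'
  have hT : ∀ g h, T g → T h → T (g * h) := by
    intro g h hg hh w
    have e : tr P * (g * h) * tr (-P) = (tr P * g * tr (-P)) * (tr P * h * tr (-P)) := by
      have : tr (-P) * tr P = 1 := by rw [tr_mul_tr, neg_add_cancel, tr_zero]
      calc tr P * (g * h) * tr (-P) = tr P * g * 1 * (h * tr (-P)) := by group
        _ = tr P * g * (tr (-P) * tr P) * (h * tr (-P)) := by rw [this]
        _ = _ := by group
    obtain ⟨b1, w', b2⟩ := hh w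
    obtain ⟨b3, w'', b4⟩ := hg w'
    rw [e]
    refine ⟨?_, w'', ?_⟩
    · refine sub_mul (hW j) b1 ?_
      rw [b2]
      exact b3
    · rw [mul_smul, b2, b4]
  have T2 : T s2 := by
    have := loop s2 P1 (Or.inr (Or.inr (Or.inl rfl))) h1 (fun w => ⟨(w.1, -w.2), by
      rw [smul_def]
      simp only [s2, act, sim, t1, Prod.mk.injEq]
      constructor <;> push_cast <;> ring⟩)
    have e : tr (P - P1) * s2 * tr (P1 - P) = tr P * s2 * tr (-P) := by
      simp only [tr, s2, mul_false, Gam.mk.injEq, and_true, Prod.fst_sub, Prod.snd_sub,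
        Prod.fst_neg, Prod.snd_neg, t1]
      refine ⟨?_, ?_⟩ <;> push_cast <;> ring
    rw [e] at this
    exact this
  have Ts : T sw := by
    have := loop sw P2 (Or.inr (Or.inr (Or.inr (Or.inl rfl)))) h2 (fun w => ⟨(w.2, w.1), by
      rw [smul_def]
      simp only [sw, act, sim, t2, Prod.mk.injEq]
      constructor <;> push_cast <;> ring⟩)
    have e : tr (P - P2) * sw * tr (P2 - P) = tr P * sw * tr (-P) := by
      simp only [tr, sw, mul_false, mul_true, Gam.mk.injEq, and_true, Prod.fst_sub, Prod.snd_sub,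
        Prod.fst_neg, Prod.snd_neg, t2]
      refine ⟨?_, ?_⟩ <;> push_cast <;> ring
    rw [e] at this
    exact this
  have T3 : T (r3 n) := by
    have := loop s1 P3 (Or.inr (Or.inl rfl)) h3 (fun w => ⟨(-1 - w.1, w.2), by
      rw [smul_def]
      simp only [s1, act, sim, t3, Prod.mk.injEq, hn]
      constructor <;> push_cast <;> ring⟩)
    have e : tr (P - P3) * s1 * tr (P3 - P) = tr P * r3 n * tr (-P) := by
      simp only [tr, s1, r3, mul_false, Gam.mk.injEq, and_true, Prod.fst_sub, Prod.snd_sub,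
        Prod.fst_neg, Prod.snd_neg, t3, hn]
      refine ⟨?_, ?_⟩ <;> push_cast <;> ring
    rw [e] at this
    exact this
  have hall := generation n T hT T2 Ts T3
  intro x g
  exact (hall g x).1

end

end H812R4
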