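import Mathlib
import Pool.Agent.H812R4.Space

/-! # The groupoid `ℤ₂² ⋊ (ℤ² ⋊ D₄)` has dynamic asymptotic dimension at most two -/

namespace H812R4

open Gam Metric

noncomputable section

/-- linear part -/
def lin (g : Gam) : Gam := ⟨0, 0, g.a, g.b, g.w⟩

/-- inclusion of the integer plane -/
def cst (z : ℤ × ℤ) : X2 := ((z.1 : ℤ_[2]), (z.2 : ℤ_[2]))

theorem act_add (g : Gam) (c : X2) (z : ℤ × ℤ) :
    g • (c + cst z) = lin g • c + cst (act g z) := by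
  simp only [smul_def]
  rcases g with ⟨u, v, a, b, _ | _⟩ <;>
    simp only [lin, act, cst, Prod.fst_add, Prod.snd_add, Int.cast_add, Int.cast_mul,
      Int.cast_zero, Prod.mk_add_mk, Prod.mk.injEq, Int.cast_id] <;>
    constructor <;> ring

/-- Conditions on a set of centres. -/
structure Good (Z : Set X2) (R r : ℤ) (e : ℕ) : Prop where
  op : IsOpen Z
  inv : ∀ c ∈ Z, ∀ g, lin g • c ∈ Z
  diff : ∀ c ∈ Z, ∀ c' ∈ Z, ∃ w : X2, c.1 = c'.1 + 2 ^ e * w.1 ∧ c.2 = c'.2 + 2 ^ e * w.2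
  nonneg : 0 ≤ R
  sep : 2 * R + r < 2 ^ e

/-- The union of the squares of radius `R` around the centres. -/
def UU (Z : Set X2) (R : ℤ) : Set X2 :=
  {x | ∃ c ∈ Z, ∃ z : ℤ × ℤ, |z.1| ≤ R ∧ |z.2| ≤ R ∧ x = c + cst z}

theorem isOpen_UU {Z : Set X2} {R r : ℤ} {e : ℕ} (h : Good Z R r e) : IsOpen (UU Z R) := by
  have e1 : UU Z R = ⋃ z : ℤ × ℤ, ⋃ _ : |z.1| ≤ R ∧ |z.2| ≤ R, (fun x => x - cst z) ⁻¹' Z := by
    ext x
    simp only [Set.mem_iUnion, Set.mem_preimage, exists_prop]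
    constructor
    · rintro ⟨c, hc, z, h1, h2, rfl⟩
      exact ⟨z, ⟨h1, h2⟩, by simpa using hc⟩
    · rintro ⟨z, ⟨h1, h2⟩, hc⟩
      exact ⟨_, hc, z, h1, h2, by simp⟩
  rw [e1]
  exact isOpen_iUnion fun z => isOpen_iUnion fun _ =>
    h.op.preimage (continuous_id.sub continuous_const)

theorem dvd_of_cast {e : ℕ} {t : ℤ} {w : ℤ_[2]} (h : (t : ℤ_[2]) = 2 ^ e * w) :
    (2 : ℤ) ^ e ∣ t := by
  have h1 : ‖(t : ℤ_[2])‖ ≤ ((2 : ℕ) : ℝ) ^ (-(e : ℤ)) := by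
    rw [h]
    refine (norm_two_pow_mul e w).trans (le_of_eq ?_)
    rw [zpow_neg, zpow_natCast, one_div, inv_pow]
    norm_num
  have h2 := PadicInt.norm_int_le_pow_iff_dvd.mp h1
  simpa using h2

theorem eq_of_small {e : ℕ} {t : ℤ} (h : (2 : ℤ) ^ e ∣ t) (ht : |t| < 2 ^ e) : t = 0 :=
  Int.eq_zero_of_abs_lt_dvd h ht

theorem unique_dec {Z : Set X2} {R r : ℤ} {e : ℕ} (h : Good Z R r e) {c c' : X2} (hc : c ∈ Z)
    (hc' : c' ∈ Z) {z z' : ℤ × ℤ} (h1 : |z.1| ≤ R + r) (h2 : |z.2| ≤ R + r) (h3 : |z'.1| ≤ R)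
    (h4 : |z'.2| ≤ R) (he : c + cst z = c' + cst z') : z = z' := by
  obtain ⟨w, w1, w2⟩ := h.diff c hc c' hc'
  have hs := h.sep
  have e1 : c.1 + (z.1 : ℤ_[2]) = c'.1 + (z'.1 : ℤ_[2]) := congrArg Prod.fst he
  have e2 : c.2 + (z.2 : ℤ_[2]) = c'.2 + (z'.2 : ℤ_[2]) := congrArg Prod.snd he
  have a1 : z'.1 - z.1 = 0 := by
    refine eq_of_small (e := e) (dvd_of_cast (w := w.1) ?_) ?_
    · push_cast
      rw [w1] at e1
      linear_combination -e1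
    · rw [abs_le] at h1 h3
      rw [abs_lt]
      constructor <;> linarith [h1.1, h1.2, h3.1, h3.2]
  have a2 : z'.2 - z.2 = 0 := by
    refine eq_of_small (e := e) (dvd_of_cast (w := w.2) ?_) ?_
    · push_cast
      rw [w2] at e2
      linear_combination -e2
    · rw [abs_le] at h2 h4
      rw [abs_lt]
      constructor <;> linarith [h2.1, h2.2, h4.1, h4.2]
  ext
  · linarith
  · linarith

theorem units_abs (a : ℤˣ) (t : ℤ) : |(a : ℤ) * t| = |t| := by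
  rcases Int.units_eq_one_or a with h | h <;> subst h <;> simp

theorem act_bound (g : Gam) {R r : ℤ} (hu : |g.u| ≤ r) (hv : |g.v| ≤ r) {z : ℤ × ℤ}
    (h1 : |z.1| ≤ R) (h2 : |z.2| ≤ R) : |(act g z).1| ≤ R + r ∧ |(act g z).2| ≤ R + r := by
  rcases g with ⟨u, v, a, b, _ | _⟩ <;> simp only [act, Int.cast_id] <;> simp only at hu hv
  · refine ⟨(abs_add_le _ _).trans ?_, (abs_add_le _ _).trans ?_⟩ <;> rw [units_abs] <;> linarith
  · refine ⟨(abs_add_le _ _).trans ?_, (abs_add_le _ _).trans ?_⟩ <;> rw [units_abs] <;> linarith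

theorem act_bound' (g : Gam) {R : ℤ} {z : ℤ × ℤ}
    (h1 : |z.1| ≤ R) (h2 : |z.2| ≤ R) (h3 : |(act g z).1| ≤ R) (h4 : |(act g z).2| ≤ R) :
    |g.u| ≤ 2 * R ∧ |g.v| ≤ 2 * R := by
  rcases g with ⟨u, v, a, b, _ | _⟩ <;> simp only [act, Int.cast_id] at h3 h4 ⊢
  · constructor
    · have e : u = ((a : ℤ) * z.1 + u) - (a : ℤ) * z.1 := by ring
      rw [e]
      refine (abs_sub _ _).trans ?_
      rw [units_abs]
      linarith
    · have e : v = ((b : ℤ) * z.2 + v) - (b : ℤ) * z.2 := by ring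
      rw [e]
      refine (abs_sub _ _).trans ?_
      rw [units_abs]
      linarith
  · constructor
    · have e : u = ((a : ℤ) * z.2 + u) - (a : ℤ) * z.2 := by ring
      rw [e]
      refine (abs_sub _ _).trans ?_
      rw [units_abs]
      linarith
    · have e : v = ((b : ℤ) * z.1 + v) - (b : ℤ) * z.1 := by ring
      rw [e]
      refine (abs_sub _ _).trans ?_
      rw [units_abs]
      linarith

theorem finite_box (R : ℤ) : {g : Gam | |g.u| ≤ R ∧ |g.v| ≤ R}.Finite := by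
  have h1 : (Set.Icc (-R) R ×ˢ (Set.Icc (-R) R ×ˢ
      (Set.univ : Set (ℤˣ × ℤˣ × Bool)))).Finite :=
    (Set.finite_Icc _ _).prod ((Set.finite_Icc _ _).prod Set.finite_univ)
  refine (h1.image (fun p => (⟨p.1, p.2.1, p.2.2.1, p.2.2.2.1, p.2.2.2.2⟩ : Gam))).subset ?_
  rintro g ⟨hu, hv⟩
  exact ⟨(g.u, g.v, g.a, g.b, g.w), ⟨⟨(abs_le.mp hu).1, (abs_le.mp hu).2⟩,
    ⟨(abs_le.mp hv).1, (abs_le.mp hv).2⟩, Set.mem_univ _⟩, rfl⟩

/-- The subgroupoid attached to a set of centres. -/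
def Hs (Z : Set X2) (R : ℤ) : Set (X2 × Gam) :=
  {p | ∃ c ∈ Z, ∃ z : ℤ × ℤ, |z.1| ≤ R ∧ |z.2| ≤ R ∧ p.1 = c + cst z ∧
    |(act p.2 z).1| ≤ R ∧ |(act p.2 z).2| ≤ R}

theorem isSubgroupoid_Hs {Z : Set X2} {R r : ℤ} {e : ℕ} (h : Good Z R r e) (hr : 0 ≤ r) :
    GG.IsSubgroupoid (Hs Z R) := by
  constructor
  · rintro ⟨y, k⟩ hy ⟨x, g⟩ hx eq
    have e1 : y = g • x := congrArg Prod.fst eq
    obtain ⟨c1, hc1, z1, b1, b2, b3, b4, b5⟩ := hy
    obtain ⟨c, hc, z, d1, d2, d3, d4, d5⟩ := hx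
    simp only at b3 b4 b5 d3 d4 d5
    have e2 : lin g • c + cst (act g z) = c1 + cst z1 := by
      rw [← b3, e1, d3, act_add]
    have e3 := unique_dec h (h.inv c hc g) hc1 (by linarith) (by linarith) b1 b2 e2
    refine ⟨c, hc, z, d1, d2, d3, ?_, ?_⟩
    · change |(act (k * g) z).1| ≤ R
      rw [act_mul, e3]
      exact b4
    · change |(act (k * g) z).2| ≤ R
      rw [act_mul, e3]
      exact b5
  · rintro ⟨x, g⟩ hx
    obtain ⟨c, hc, z, d1, d2, d3, d4, d5⟩ := hx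
    simp only at d3 d4 d5
    refine ⟨lin g • c, h.inv c hc g, act g z, d4, d5, ?_, ?_, ?_⟩
    · change g • x = _
      rw [d3, act_add]
    · change |(act g⁻¹ (act g z)).1| ≤ R
      rw [← act_mul, inv_mul_cancel, act_one]
      exact d1
    · change |(act g⁻¹ (act g z)).2| ≤ R
      rw [← act_mul, inv_mul_cancel, act_one]
      exact d2

/-- the part of the unit space -/
def UUnit (Z : Set X2) (R : ℤ) : Set (X2 × Gam) := {p | p.1 ∈ UU Z R ∧ p.2 = 1}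

theorem isOpen_UUnit {Z : Set X2} {R r : ℤ} {e : ℕ} (h : Good Z R r e) :
    IsOpen (UUnit Z R) := by
  have : UUnit Z R = UU Z R ×ˢ ({1} : Set Gam) := by
    ext p
    rfl
  rw [this]
  exact (isOpen_UU h).prod (isOpen_discrete _)

theorem relCompact_gen {Z : Set X2} {R r : ℤ} {e : ℕ} (h : Good Z R r e) (hr : 0 ≤ r)
    {K : Set (X2 × Gam)} (hK : ∀ p ∈ K, |p.2.u| ≤ r ∧ |p.2.v| ≤ r) :
    GG.RelCompact (GG.gen (GG.restr K (UUnit Z R))) := by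
  have h1 : GG.restr K (UUnit Z R) ⊆ Hs Z R := by
    rintro ⟨x, g⟩ ⟨hk, hs, hr'⟩
    have hs1 : x ∈ UU Z R := hs.1
    have hr1 : g • x ∈ UU Z R := hr'.1
    obtain ⟨c, hc, z, d1, d2, d3⟩ := hs1
    obtain ⟨c', hc', z', d1', d2', d3'⟩ := hr1
    obtain ⟨k1, k2⟩ := hK _ hk
    obtain ⟨b1, b2⟩ := act_bound g k1 k2 d1 d2
    have e2 : lin g • c + cst (act g z) = c' + cst z' := by
      rw [← d3', d3, act_add]
    have e3 := unique_dec h (h.inv c hc g) hc' b1 b2 d1' d2' e2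
    refine ⟨c, hc, z, d1, d2, d3, ?_, ?_⟩
    · change |(act g z).1| ≤ R
      rw [e3]
      exact d1'
    · change |(act g z).2| ≤ R
      rw [e3]
      exact d2'
  have h2 : GG.gen (GG.restr K (UUnit Z R)) ⊆
      (Set.univ : Set X2) ×ˢ {g : Gam | |g.u| ≤ 2 * R ∧ |g.v| ≤ 2 * R} := by
    refine (EtaleGroupoid.gen_subset (isSubgroupoid_Hs h hr) h1).trans ?_
    rintro ⟨x, g⟩ ⟨c, hc, z, d1, d2, d3, d4, d5⟩
    exact ⟨Set.mem_univ _, act_bound' g d1 d2 d4 d5⟩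
  have h3 : IsCompact ((Set.univ : Set X2) ×ˢ {g : Gam | |g.u| ≤ 2 * R ∧ |g.v| ≤ 2 * R}) :=
    isCompact_univ.prod (finite_box _).isCompact
  exact h3.of_isClosed_subset isClosed_closure (closure_minimal h2 h3.isClosed)

/-! ### The three sets of centres -/

/-- centres for the first colour -/
def Z0 (k : ℕ) : Set X2 := Set.range (sim (0, 0) (2 ^ (k + 3)))
/-- centres for the second colour -/
def Z1 (k : ℕ) : Set X2 := Set.range (sim (4 * 2 ^ k, 4 * 2 ^ k) (2 ^ (k + 3)))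
/-- centres for the third colour -/
def Z2 (k : ℕ) : Set X2 := Set.range (sim (4 * 2 ^ k, 0) (2 ^ (k + 3))) ∪
  Set.range (sim (0, 4 * 2 ^ k) (2 ^ (k + 3)))

theorem sgn (a : ℤˣ) (k : ℕ) (w : ℤ_[2]) : ∃ w' : ℤ_[2],
    ((a : ℤ) : ℤ_[2]) * (4 * 2 ^ k + 2 ^ (k + 3) * w) = 4 * 2 ^ k + 2 ^ (k + 3) * w' := by
  rcases Int.units_eq_one_or a with h | h <;> subst h
  · exact ⟨w, by simp⟩
  · refine ⟨-1 - w, ?_⟩
    push_cast
    ring

theorem good0 (k : ℕ) {r : ℤ} (hr : r < 2 ^ k) : Good (Z0 k) (3 * 2 ^ k) r (k + 3) := by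
  refine ⟨isOpen_range_sim _ _, ?_, ?_, by positivity, ?_⟩
  · rintro _ ⟨w, rfl⟩ ⟨u, v, a, b, _ | _⟩
    · refine ⟨(((a : ℤ) : ℤ_[2]) * w.1, ((b : ℤ) : ℤ_[2]) * w.2), ?_⟩
      simp only [smul_def, lin, act, sim, Prod.mk.injEq]
      constructor <;> push_cast <;> ring
    · refine ⟨(((a : ℤ) : ℤ_[2]) * w.2, ((b : ℤ) : ℤ_[2]) * w.1), ?_⟩
      simp only [smul_def, lin, act, sim, Prod.mk.injEq]
      constructor <;> push_cast <;> ring
  · rintro _ ⟨w, rfl⟩ _ ⟨w', rfl⟩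
    refine ⟨(w.1 - w'.1, w.2 - w'.2), ?_, ?_⟩ <;> simp only [sim] <;> push_cast <;> ring
  · have : (0 : ℤ) < 2 ^ k := by positivity
    rw [pow_add]
    linarith

theorem good1 (k : ℕ) {r : ℤ} (hr : r < 2 ^ k) : Good (Z1 k) (3 * 2 ^ k) r (k + 3) := by
  refine ⟨isOpen_range_sim _ _, ?_, ?_, by positivity, ?_⟩
  · rintro _ ⟨w, rfl⟩ ⟨u, v, a, b, _ | _⟩
    · obtain ⟨w1, h1⟩ := sgn a k w.1
      obtain ⟨w2, h2⟩ := sgn b k w.2
      refine ⟨(w1, w2), ?_⟩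
      simp only [smul_def, lin, act, sim, Prod.mk.injEq]
      push_cast
      rw [h1, h2]
      simp
    · obtain ⟨w1, h1⟩ := sgn a k w.2
      obtain ⟨w2, h2⟩ := sgn b k w.1
      refine ⟨(w1, w2), ?_⟩
      simp only [smul_def, lin, act, sim, Prod.mk.injEq]
      push_cast
      rw [h1, h2]
      simp
  · rintro _ ⟨w, rfl⟩ _ ⟨w', rfl⟩
    refine ⟨(w.1 - w'.1, w.2 - w'.2), ?_, ?_⟩ <;> simp only [sim] <;> push_cast <;> ring
  · have : (0 : ℤ) < 2 ^ k := by positivity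
    rw [pow_add]
    linarith

theorem good2 (k : ℕ) {r : ℤ} (hr : r < 2 ^ k) : Good (Z2 k) (2 ^ k) r (k + 2) := by
  refine ⟨(isOpen_range_sim _ _).union (isOpen_range_sim _ _), ?_, ?_, by positivity, ?_⟩
  · rintro _ (⟨w, rfl⟩ | ⟨w, rfl⟩) ⟨u, v, a, b, _ | _⟩
    · obtain ⟨w1, h1⟩ := sgn a k w.1
      left
      refine ⟨(w1, ((b : ℤ) : ℤ_[2]) * w.2), ?_⟩
      simp only [smul_def, lin, act, sim, Prod.mk.injEq]
      push_cast
      rw [h1]
      constructor <;> ring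
    · obtain ⟨w1, h1⟩ := sgn b k w.1
      right
      refine ⟨(((a : ℤ) : ℤ_[2]) * w.2, w1), ?_⟩
      simp only [smul_def, lin, act, sim, Prod.mk.injEq]
      push_cast
      rw [h1]
      constructor <;> ring
    · obtain ⟨w1, h1⟩ := sgn b k w.2
      right
      refine ⟨(((a : ℤ) : ℤ_[2]) * w.1, w1), ?_⟩
      simp only [smul_def, lin, act, sim, Prod.mk.injEq]
      push_cast
      rw [h1]
      constructor <;> ring
    · obtain ⟨w1, h1⟩ := sgn a k w.2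
      left
      refine ⟨(w1, ((b : ℤ) : ℤ_[2]) * w.1), ?_⟩
      simp only [smul_def, lin, act, sim, Prod.mk.injEq]
      push_cast
      rw [h1]
      constructor <;> ring
  · rintro _ (⟨w, rfl⟩ | ⟨w, rfl⟩) _ (⟨w', rfl⟩ | ⟨w', rfl⟩)
    · refine ⟨(2 * w.1 - 2 * w'.1, 2 * w.2 - 2 * w'.2), ?_, ?_⟩ <;> simp only [sim] <;>
        push_cast <;> ring
    · refine ⟨(1 + 2 * w.1 - 2 * w'.1, -1 + 2 * w.2 - 2 * w'.2), ?_, ?_⟩ <;> simp only [sim] <;>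
        push_cast <;> ring
    · refine ⟨(-1 + 2 * w.1 - 2 * w'.1, 1 + 2 * w.2 - 2 * w'.2), ?_, ?_⟩ <;> simp only [sim] <;>
        push_cast <;> ring
    · refine ⟨(2 * w.1 - 2 * w'.1, 2 * w.2 - 2 * w'.2), ?_, ?_⟩ <;> simp only [sim] <;>
        push_cast <;> ring
  · have : (0 : ℤ) < 2 ^ k := by positivity
    rw [pow_add]
    linarith

/-- balanced residues -/
theorem approx (k : ℕ) (x : ℤ_[2]) : ∃ (z : ℤ) (w : ℤ_[2]),
    x = (z : ℤ_[2]) + 2 ^ (k + 3) * w ∧ |z| ≤ 4 * 2 ^ k := by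
  have h1 := PadicInt.appr_spec (k + 3) x
  rw [Ideal.mem_span_singleton] at h1
  obtain ⟨c, hc⟩ := h1
  set n : ℤ := (PadicInt.appr x (k + 3) : ℤ) with hn
  set t : ℤ := (n + 4 * 2 ^ k) / 2 ^ (k + 3) with ht
  have hq : (0 : ℤ) < 2 ^ k := by positivity
  have h8 : (2 : ℤ) ^ (k + 3) = 8 * 2 ^ k := by rw [pow_add]; ring
  have hdm := Int.emod_add_mul_ediv (n + 4 * 2 ^ k) (2 ^ (k + 3))
  have hm0 := Int.emod_nonneg (n + 4 * 2 ^ k) (show (2 : ℤ) ^ (k + 3) ≠ 0 by positivity)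
  have hm1 := Int.emod_lt_of_pos (n + 4 * 2 ^ k) (show (0 : ℤ) < 2 ^ (k + 3) by positivity)
  rw [← ht] at hdm
  refine ⟨n - 2 ^ (k + 3) * t, c + t, ?_, ?_⟩
  · have hc' : x = (n : ℤ_[2]) + 2 ^ (k + 3) * c := by
      rw [hn]
      push_cast
      push_cast at hc
      linear_combination hc
    rw [hc']
    push_cast
    ring
  · rw [abs_le]
    constructor <;> linarith

theorem half {q z s : ℤ} (hz : |z| ≤ 4 * q) (hs : s ≤ |z|) (hq : 0 < q) (hs0 : 0 < s)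
    (hs4 : s ≤ 4 * q) :
    ∃ z' t : ℤ, z = 4 * q + z' + 8 * q * t ∧ |z'| ≤ 4 * q - s := by
  rw [abs_le] at hz
  rcases le_abs.mp hs with h | h
  · refine ⟨z - 4 * q, 0, by ring, ?_⟩
    rw [abs_le]
    constructor <;> linarith [hz.1, hz.2]
  · refine ⟨z + 4 * q, -1, by ring, ?_⟩
    rw [abs_le]
    constructor <;> linarith [hz.1, hz.2]

theorem cover (k : ℕ) (x : X2) : x ∈ UU (Z0 k) (3 * 2 ^ k) ∨ x ∈ UU (Z1 k) (3 * 2 ^ k) ∨
    x ∈ UU (Z2 k) (2 ^ k) := by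
  obtain ⟨z1, w1, e1, b1⟩ := approx k x.1
  obtain ⟨z2, w2, e2, b2⟩ := approx k x.2
  have hq : (0 : ℤ) < 2 ^ k := by positivity
  by_cases h0 : |z1| ≤ 3 * 2 ^ k ∧ |z2| ≤ 3 * 2 ^ k
  · left
    refine ⟨sim (0, 0) (2 ^ (k + 3)) (w1, w2), ⟨_, rfl⟩, (z1, z2), h0.1, h0.2, ?_⟩
    ext1
    · simp only [sim, cst, Prod.fst_add]
      rw [e1]; push_cast; ring
    · simp only [sim, cst, Prod.snd_add]
      rw [e2]; push_cast; ring
  by_cases h1 : (2 : ℤ) ^ k ≤ |z1| ∧ (2 : ℤ) ^ k ≤ |z2|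
  · right; left
    obtain ⟨a1, t1, c1, d1⟩ := half b1 h1.1 hq hq (by linarith)
    obtain ⟨a2, t2, c2, d2⟩ := half b2 h1.2 hq hq (by linarith)
    refine ⟨sim (4 * 2 ^ k, 4 * 2 ^ k) (2 ^ (k + 3)) (w1 + t1, w2 + t2), ⟨_, rfl⟩, (a1, a2),
      by simpa using (by linarith : |a1| ≤ 3 * 2 ^ k),
      by simpa using (by linarith : |a2| ≤ 3 * 2 ^ k), ?_⟩
    ext1
    · simp only [sim, cst, Prod.fst_add]
      rw [e1, c1]; push_cast; ring
    · simp only [sim, cst, Prod.snd_add]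
      rw [e2, c2]; push_cast; ring
  · right; right
    rw [not_and_or, not_le, not_le] at h0 h1
    rcases h0 with h0 | h0
    · -- |z1| > 3q, so |z2| < q
      have h2 : |z2| < 2 ^ k := by
        rcases h1 with h1 | h1
        · linarith
        · exact h1
      obtain ⟨a1, t1, c1, d1⟩ := half b1 h0.le hq (by linarith) (by linarith)
      refine ⟨sim (4 * 2 ^ k, 0) (2 ^ (k + 3)) (w1 + t1, w2), Or.inl ⟨_, rfl⟩, (a1, z2),
        by simpa using (by linarith : |a1| ≤ 2 ^ k), by simpa using h2.le, ?_⟩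
      ext1
      · simp only [sim, cst, Prod.fst_add]
        rw [e1, c1]; push_cast; ring
      · simp only [sim, cst, Prod.snd_add]
        rw [e2]; push_cast; ring
    · have h2 : |z1| < 2 ^ k := by
        rcases h1 with h1 | h1
        · exact h1
        · linarith
      obtain ⟨a2, t2, c2, d2⟩ := half b2 h0.le hq (by linarith) (by linarith)
      refine ⟨sim (0, 4 * 2 ^ k) (2 ^ (k + 3)) (w1, w2 + t2), Or.inr ⟨_, rfl⟩, (z1, a2),
        by simpa using h2.le, by simpa using (by linarith : |a2| ≤ 2 ^ k), ?_⟩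
      ext1
      · simp only [sim, cst, Prod.fst_add]
        rw [e1]; push_cast; ring
      · simp only [sim, cst, Prod.snd_add]
        rw [e2, c2]; push_cast; ring

theorem exists_bound {S : Set Gam} (hS : S.Finite) : ∃ k : ℕ, ∀ g ∈ S,
    |g.u| ≤ (2 : ℤ) ^ k - 1 ∧ |g.v| ≤ (2 : ℤ) ^ k - 1 := by
  obtain ⟨N, hN⟩ := (hS.image (fun g : Gam => |g.u|.toNat + |g.v|.toNat)).bddAbove
  refine ⟨N, fun g hg => ?_⟩
  have h1 : |g.u|.toNat + |g.v|.toNat ≤ N := hN ⟨g, hg, rfl⟩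
  have h2 : N < 2 ^ N := Nat.lt_two_pow_self
  have h3 : (N : ℤ) < 2 ^ N := by exact_mod_cast h2
  have h4 : |g.u| ≤ (N : ℤ) := by omega
  have h5 : |g.v| ≤ (N : ℤ) := by omega
  constructor <;> linarith

theorem DADLE_two : GG.DADLE 2 := by
  intro K _ hKc
  have hS : (Prod.snd '' (closure K : Set (X2 × Gam))).Finite :=
    isCompact_iff_finite.mp (IsCompact.image hKc continuous_snd)
  obtain ⟨k, hk⟩ := exists_bound hS
  have hK : ∀ p ∈ (K : Set (X2 × Gam)), |p.2.u| ≤ (2 : ℤ) ^ k - 1 ∧ |p.2.v| ≤ (2 : ℤ) ^ k - 1 :=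
    fun p hp => hk _ ⟨p, subset_closure hp, rfl⟩
  have hr0 : (0 : ℤ) ≤ 2 ^ k - 1 := by
    have : (1 : ℤ) ≤ 2 ^ k := one_le_pow₀ (by norm_num)
    linarith
  have hr1 : (2 : ℤ) ^ k - 1 < 2 ^ k := by linarith
  have g0 := good0 k hr1
  have g1 := good1 k hr1
  have g2 := good2 k hr1
  refine ⟨![UUnit (Z0 k) (3 * 2 ^ k), UUnit (Z1 k) (3 * 2 ^ k), UUnit (Z2 k) (2 ^ k)],
    ?_, ?_, ?_⟩
  · have hu : ∀ (Z : Set X2) (R : ℤ), (UUnit Z R : Set GG.carrier) ⊆ GG.units := by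
      rintro Z R ⟨x, g⟩ ⟨_, hg⟩
      have : g = 1 := hg
      subst this
      rfl
    intro i
    fin_cases i
    · exact ⟨isOpen_UUnit g0, hu _ _⟩
    · exact ⟨isOpen_UUnit g1, hu _ _⟩
    · exact ⟨isOpen_UUnit g2, hu _ _⟩
  · have hall : ∀ x : X2, ((x, 1) : X2 × Gam) ∈ ⋃ i : Fin 3,
        (![UUnit (Z0 k) (3 * 2 ^ k), UUnit (Z1 k) (3 * 2 ^ k), UUnit (Z2 k) (2 ^ k)] :
          Fin 3 → Set (X2 × Gam)) i := by
      intro x
      rw [Set.mem_iUnion]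
      rcases cover k x with h | h | h
      · exact ⟨0, h, rfl⟩
      · exact ⟨1, h, rfl⟩
      · exact ⟨2, h, rfl⟩
    rintro p (⟨g, _, rfl⟩ | ⟨g, _, rfl⟩)
    · exact hall g.1
    · exact hall (g.2 • g.1)
  · intro i
    fin_cases i
    · exact relCompact_gen g0 hr0 hK
    · exact relCompact_gen g1 hr0 hK
    · exact relCompact_gen g2 hr0 hK

end

end H812R4
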