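import Mathlib
import Pool.Agent.H812R4.Space

/-! # The groupoid `ℤ₂² ⋊ (ℤ² ⋊ D₄)` does not have finite dynamical complexity -/

namespace H812R4

open Gam Metric

noncomputable section

/-- `H` contains a self-similar copy of the whole groupoid. -/
def Big (H : Set (X2 × Gam)) : Prop :=
  ∃ (P : ℤ × ℤ) (k : ℕ), ∀ (x : X2) (g : Gam), (sim P (2 ^ k) x, iota P (2 ^ k) g) ∈ H

/-- The self-similarity of the groupoid. -/
def Phi (P : ℤ × ℤ) (n : ℤ) (p : X2 × Gam) : X2 × Gam := (sim P n p.1, iota P n p.2)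

theorem smul_sim (P : ℤ × ℤ) (n : ℤ) (g : Gam) (x : X2) :
    iota P n g • (sim P n x : X2) = sim P n (g • x) := iota_act P n g x

theorem continuous_Phi (P : ℤ × ℤ) (n : ℤ) : Continuous (Phi P n) := by
  refine Continuous.prodMk ?_ ?_
  · exact (continuous_sim P n).comp continuous_fst
  · exact (continuous_of_discreteTopology (f := iota P n)).comp continuous_snd

theorem isSubgroupoid_preimage (P : ℤ × ℤ) (n : ℤ) {W : Set (X2 × Gam)}
    (hW : GG.IsSubgroupoid W) : GG.IsSubgroupoid (Phi P n ⁻¹' W) := by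
  constructor
  · intro g hg h hh e
    have e1 : g.1 = h.2 • h.1 := congrArg Prod.fst e
    have hg' : (sim P n g.1, iota P n g.2) ∈ W := hg
    have hh' : (sim P n h.1, iota P n h.2) ∈ W := hh
    change (sim P n h.1, iota P n (g.2 * h.2)) ∈ W
    rw [iota_mul]
    refine sub_mul hW hh' ?_
    rw [smul_sim, ← e1]
    exact hg'
  · intro g hg
    have hg' : (sim P n g.1, iota P n g.2) ∈ W := hg
    have := hW.2 _ hg'
    change (sim P n (g.2 • g.1), iota P n g.2⁻¹) ∈ W
    rw [iota_inv, ← smul_sim]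
    exact this

theorem not_big_of_relCompact {H : Set (X2 × Gam)} (hc : GG.RelCompact H) : ¬ Big H := by
  rintro ⟨P, k, h⟩
  have h1 : IsCompact (Prod.snd '' (closure H)) := IsCompact.image hc continuous_snd
  have h2 : (Prod.snd '' (closure H)).Finite := isCompact_iff_finite.mp h1
  have h3 : Set.range (fun m : ℤ => tr ((2 : ℤ) ^ k * m, 0)) ⊆ Prod.snd '' (closure H) := by
    rintro _ ⟨m, rfl⟩
    refine ⟨_, subset_closure (h 0 (tr (m, 0))), ?_⟩
    simp only [iota, scl, tr, mul_false, Gam.mk.injEq, and_true, Prod.fst_neg, Prod.snd_neg,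
      Units.val_one]
    refine ⟨?_, ?_, ?_⟩
    · simp
    · simp
    · simp
  have h4 : Function.Injective (fun m : ℤ => tr ((2 : ℤ) ^ k * m, 0)) := by
    intro m m' e
    have e1 : (2 : ℤ) ^ k * m = 2 ^ k * m' := congrArg Gam.u e
    exact mul_left_cancel₀ (by positivity) e1
  exact Set.infinite_range_of_injective h4 (h2.subset h3)

theorem not_big_of_decomposable {H : Set (X2 × Gam)} {D : Set (Set (X2 × Gam))}
    (hD : ∀ L ∈ D, ¬ Big L)
    (hdec : GG.DecomposableRel H D) : ¬ Big H := by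
  rintro ⟨P, k, hbig⟩
  set n : ℤ := 2 ^ k with hn
  let K : Set (X2 × Gam) := Phi P n '' (Set.univ ×ˢ FF)
  have hKH : K ⊆ H := by
    rintro _ ⟨⟨x, g⟩, _, rfl⟩
    exact hbig x g
  have hKo : IsOpen K := by
    have e : K = ⋃ g ∈ FF, (Set.range (sim P n : X2 → X2)) ×ˢ ({iota P n g} : Set Gam) := by
      ext ⟨y, h⟩
      simp only [Set.mem_iUnion, Set.mem_prod, Set.mem_singleton_iff, exists_prop]
      constructor
      · rintro ⟨⟨x, g⟩, ⟨_, hg⟩, e⟩
        have e1 : sim P n x = y := congrArg Prod.fst e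
        have e2 : iota P n g = h := congrArg Prod.snd e
        exact ⟨g, hg, ⟨x, e1⟩, e2.symm⟩
      · rintro ⟨g, hg, ⟨x, e1⟩, e2⟩
        refine ⟨(x, g), ⟨Set.mem_univ _, hg⟩, ?_⟩
        simp only [Phi, e1, e2]
    rw [e]
    exact isOpen_biUnion fun g _ => (isOpen_range_sim P k).prod (isOpen_discrete _)
  have hKc : IsCompact K :=
    (isCompact_univ.prod FF_finite.isCompact).image (continuous_Phi P n)
  have hKcl : closure K = K := hKc.isClosed.closure_eq
  have hKr : GG.RelCompact K := by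
    change IsCompact (closure K)
    rw [hKcl]
    exact hKc
  obtain ⟨U, hU, hcov, hL⟩ := hdec K (by rw [← hKcl] at hKH; exact hKH) hKo hKr
  -- transport everything by the self-similarity
  let idx : Bool → Fin 2 := fun j => if j then 1 else 0
  let U' : Bool → Set X2 := fun j => {x | ((sim P n x, 1) : X2 × Gam) ∈ U (idx j)}
  let W : Bool → Set (X2 × Gam) := fun j => Phi P n ⁻¹' (GG.gen (GG.restr K (U (idx j))))
  obtain ⟨j, Q, m, hjm⟩ := keyLemma U'
    (fun j => (hU (idx j)).preimage ((continuous_sim P n).prodMk continuous_const))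
    (fun x => by
      have h1 : ((sim P n x, 1) : GG.carrier) ∈ U 0 ∪ U 1 := by
        rw [hcov]
        refine ⟨?_, rfl⟩
        have := hbig x 1
        rwa [iota_one] at this
      rcases h1 with h1 | h1
      · exact ⟨false, h1⟩
      · exact ⟨true, h1⟩)
    W
    (fun j => isSubgroupoid_preimage P n (EtaleGroupoid.isSubgroupoid_gen _))
    (fun j x g hg hx hgx => by
      refine EtaleGroupoid.subset_gen _ ?_
      refine ⟨⟨(x, g), ⟨Set.mem_univ _, hg⟩, rfl⟩, hx, ?_⟩
      have : GG.r (Phi P n (x, g)) = ((sim P n (g • x), 1) : X2 × Gam) := by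
        rw [← smul_sim]
        rfl
      rw [this]
      exact hgx)
  obtain ⟨L, hLD, hLs⟩ := hL (idx j)
  refine hD L hLD ⟨(P.1 + n * Q.1, P.2 + n * Q.2), k + m, fun x g => ?_⟩
  have h5 : Phi P n (sim Q (2 ^ m) x, iota Q (2 ^ m) g) ∈ L := hLs (hjm x g)
  have h6 : Phi P n (sim Q (2 ^ m) x, iota Q (2 ^ m) g) =
      (sim (P.1 + n * Q.1, P.2 + n * Q.2) (2 ^ (k + m)) x,
        iota (P.1 + n * Q.1, P.2 + n * Q.2) (2 ^ (k + m)) g) := by
    simp only [Phi]
    rw [sim_sim, iota_iota, hn, pow_add]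
  rwa [h6] at h5

theorem not_FDCRel : ¬ GG.FDCRel := by
  intro h
  have h1 := h {H | GG.OpenSubgroupoid H ∧ ¬ Big H} ⟨fun H hH => hH.1,
    fun H hH hc => ⟨hH, not_big_of_relCompact hc⟩,
    fun H hH hd => ⟨hH, not_big_of_decomposable (fun L hL => hL.2) hd⟩⟩
  exact h1.2 ⟨0, 0, fun _ _ => Set.mem_univ _⟩

theorem not_FDC : ¬ GG.FDC := by
  intro h
  have h1 := h {H | GG.OpenSubgroupoid H ∧ ¬ Big H} ⟨fun H hH => hH.1,
    fun H hH hc => ⟨hH, not_big_of_relCompact hc⟩,
    fun H hH hd => ⟨hH, not_big_of_decomposable (fun L hL => hL.2)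
      (fun K hK => hd K (subset_closure.trans hK))⟩⟩
  exact h1.2 ⟨0, 0, fun _ _ => Set.mem_univ _⟩

end

end H812R4
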